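import Pool.Agent.Helper25.GF.Goals

/-!
# Project GF (MP_766b49_co), packet GIR
-/

set_option autoImplicit false

namespace Pool.Agent.Helper69.GF

open Finset Pool.Agent.Helper25.GF

theorem lt_of_mem_ch {d n : ℕ} {ω : Om d n} {x y : ℕ} (h : x ∈ ch ω y) : x < y := by
  unfold ch at h
  split_ifs at h with h0
  · rw [mem_image] at h
    obtain ⟨j, -, hj⟩ := h
    have := (ω ⟨y - 1, by omega⟩ j).isLt
    simp only at this
    omega
  · simp at h

theorem mem_ch_of_ad {d n : ℕ} {ω : Om d n} {x y : ℕ} (h : Ad ω x y) (hxy : x < y) :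
    x ∈ ch ω y := by
  rcases h with h | h
  · exact h
  · exact absurd (lt_of_mem_ch h) (by omega)

theorem gir : GIR := by
  intro d n g ω
  rw [SimpleGraph.le_egirth]
  intro a w hw
  by_contra hlt
  push Not at hlt
  have hlt' : w.length < g := by exact_mod_cast hlt
  obtain ⟨t, ht, hmax⟩ : ∃ t ∈ w.support, ∀ x ∈ w.support, x ≤ t := by
    have hne : w.support.toFinset.Nonempty := ⟨a, by simp⟩
    refine ⟨w.support.toFinset.max' hne, ?_, fun x hx => ?_⟩
    · have := w.support.toFinset.max'_mem hne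
      simpa using this
    · exact Finset.le_max' _ _ (by simpa using hx)
  have hlen : (w.rotate t ht).length = w.length := w.length_rotate t ht
  have hcyc := hw.rotate ht
  have hsup : ∀ x ∈ (w.rotate t ht).support, x ≤ t := fun x hx =>
    hmax x ((w.mem_support_rotate_iff t ht).1 hx)
  generalize w.rotate t ht = p at hlen hcyc hsup
  have h3 := hcyc.three_le_length
  have hinj := hcyc.getVert_injOn
  set l := p.length with hl
  have hp0 : p.getVert 0 = t := p.getVert_zero
  have hpl : p.getVert l = t := p.getVert_length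
  have hltt : ∀ i, 1 ≤ i → i < l → (p.getVert i : ℕ) < (t : ℕ) := by
    intro i h1 h2
    have hle : p.getVert i ≤ t := hsup _ (p.getVert_mem_support i)
    have hne : p.getVert i ≠ t := by
      intro h
      have := hinj (show i ∈ {i | 1 ≤ i ∧ i ≤ l} from ⟨h1, h2.le⟩)
        (show l ∈ {i | 1 ≤ i ∧ i ≤ l} from ⟨by omega, le_rfl⟩) (h.trans hpl.symm)
      omega
    exact lt_of_le_of_ne hle fun h => hne (Fin.ext h)
  have hadj : ∀ i, i < l → (GG ω g).Adj (p.getVert i) (p.getVert (i + 1)) := fun i hi =>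
    p.adj_getVert_succ hi
  have hbad : Bad ω g (t : ℕ) := by
    refine ⟨l - 2, by omega, by omega, fun i => (p.getVert (i + 1) : ℕ), ?_, ?_, ?_, ?_, ?_⟩
    · intro i j hij
      have hi := i.isLt
      have hj := j.isLt
      have := hinj (show (i : ℕ) + 1 ∈ {i | 1 ≤ i ∧ i ≤ l} from ⟨by omega, by omega⟩)
        (show (j : ℕ) + 1 ∈ {i | 1 ≤ i ∧ i ≤ l} from ⟨by omega, by omega⟩) (Fin.ext hij)
      exact Fin.ext (by omega)
    · intro i
      have hi := i.isLt
      exact hltt _ (by omega) (by omega)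
    · have h1 := (hadj 0 (by omega)).2.1
      rw [hp0] at h1
      have h2 := hltt 1 (by omega) (by omega)
      exact mem_ch_of_ad (Or.symm h1) (by simpa using h2)
    · have h1 := (hadj (l - 1) (by omega)).2.1
      have e : l - 1 + 1 = l := by omega
      rw [e, hpl] at h1
      have h2 := hltt (l - 1) (by omega) (by omega)
      have e2 : ((Fin.last (l - 2) : Fin (l - 2 + 1)) : ℕ) + 1 = l - 1 := by
        rw [Fin.val_last]; omega
      show (p.getVert (((Fin.last (l - 2) : Fin (l - 2 + 1)) : ℕ) + 1) : ℕ) ∈ ch ω (t : ℕ)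
      rw [e2]
      exact mem_ch_of_ad h1 h2
    · intro i
      have hi := i.isLt
      have h1 := (hadj ((i : ℕ) + 1) (by omega)).2.1
      simpa using h1
  have h1 := (hadj 0 (by omega)).2.2.1
  rw [hp0] at h1
  exact h1 hbad

end Pool.Agent.Helper69.GF
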